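import Mathlib
import Pool.Graph.R_pool_sql_team_seeded_1acbe0a2.Y548.HV.Defs
import Pool.Graph.R_pool_sql_team_seeded_1acbe0a2.Y548.HV.Single
import Pool.Agent.KS6_46.IRT.Refute

/-!
# `RCA₀` refutes `IRT_DED`, and the single ray principles do not

`IRT_DED` (directed graphs, edge-disjoint double rays) fails in *every* model of `RCA₀`, also in
every non-standard one and in the smallest `ω`-model: in other words `RCA₀` proves its negation.
Hence over `RCA₀` it implies all eight principles, and a principle `P` implies it over a theory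
`T ⊇ RCA₀` only if `T + P` is inconsistent. The four principles `IRT_XYS` for single rays hold in
a model of `RCA₀ + IΣ¹₁` (and of `ACA₀` and `Σ¹₁` choice), so none of them implies `IRT_DED`,
over each of these theories.

The digraph is that of `Pool/Agent/H798R3/DirRay.lean`, but the whole argument is carried out inside
a model of `RCA₀`, with a non-standard number of canonical double rays. New steps: a pigeonhole
principle from `Σ⁰₁` bounding replaces the finiteness arguments; no lane vertex comes after a
hub, so the lane of a double ray is `Δ⁰₁` in it and the type of the `i`-th ray is a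
function of the model.
-/

set_option autoImplicit false

namespace Pool.Agent.Results.MP_87773f_lc.RefutableInRCA

open Pool.Agent.Helper617.RM Pool.Agent.Y579.HR Pool.Agent.Y548.HV

universe u

theorem result :
    -- `RCA₀` refutes `IRT_DED`
    (∀ N : L2Structure.{u}, IsModelRCA0 N → ¬ IRT N .D .E .D) ∧
    -- so, over `RCA₀`, it implies each of the eight principles
    (∀ (x : GraphKind) (y : DisjKind) (z : RayKind) (N : L2Structure.{u}), IsModelRCA0 N →
      IRT N .D .E .D → IRT N x y z) ∧
    -- and a principle implies it over a theory only if the two are inconsistent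
    (∀ (x : GraphKind) (y : DisjKind) (z : RayKind) (T : L2Structure.{u} → Prop),
      (∀ N, IsModelRCA0 N → T N → IRT N x y z → IRT N .D .E .D) ↔
        ¬ ∃ N, IsModelRCA0 N ∧ T N ∧ IRT N x y z) ∧
    -- while the four principles for single rays are consistent with `RCA₀`, `Σ¹₁` induction,
    -- arithmetical comprehension and `Σ¹₁` choice
    ∃ N : L2Structure.{0}, IsModelRCA0 N ∧ Sigma11Induction N ∧ ArithComp N ∧ Sigma11Choice N ∧
      (∀ (x : GraphKind) (y : DisjKind), IRT N x y .S) ∧ ¬ IRT N .D .E .D := by
  have h0 : ∀ N : L2Structure.{u}, IsModelRCA0 N → ¬ IRT N .D .E .D := fun N h =>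
    Pool.Agent.KS6_46.IRT.not_IRT_DED N h
  refine ⟨h0, fun x y z N hN h => absurd h (h0 N hN), fun x y z T => ⟨?_, ?_⟩,
    fullModel, fullModel_isModel, full_sigma11Induction, fun _ _ => Set.mem_univ _, ?_,
    fun x y => irt_single x y, Pool.Agent.KS6_46.IRT.not_IRT_DED _ fullModel_isModel⟩
  · rintro h ⟨N, h1, h2, h3⟩
    exact h0 N h1 (h N h1 h2 h3)
  · intro h N h1 h2 h3
    exact absurd ⟨N, h1, h2, h3⟩ h
  · intro φ v h
    choose X _ Z _ hZ using h
    refine ⟨{x : ℕ | ∃ n m, x = Pool.Agent.Y548.HV.pr n m ∧ m ∈ X n}, Set.mem_univ _,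
      fun n => ⟨Z n, Set.mem_univ _, ?_⟩⟩
    have h1 : sec fullModel {x : ℕ | ∃ n m, x = Pool.Agent.Y548.HV.pr n m ∧ m ∈ X n} n = X n := by
      ext m
      constructor
      · rintro ⟨n', m', h2, h3⟩
        obtain ⟨rfl, rfl⟩ := Pool.Agent.Y548.HV.pr_inj (a := n) (b := m) h2
        exact h3
      · intro h2
        exact ⟨n, m, rfl, h2⟩
    rw [h1]
    exact hZ n

end Pool.Agent.Results.MP_87773f_lc.RefutableInRCA
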